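import Pool.Agent.Helper111.EN.Basic

/-!
# The law `[x_0, ..., x_c] = 1` and the lower central series
-/

set_option autoImplicit false

universe u v

open scoped commutatorElement

namespace Pool.Agent.Helper111.EN

theorem IC_congr {G : Type u} [Group G] {c : ℕ} {f g : ℕ → G} (h : ∀ i ≤ c, f i = g i) :
    IC c f = IC c g := by
  induction c with
  | zero => exact h 0 le_rfl
  | succ c ih =>
    simp only [IC]
    rw [ih (fun i hi => h i (hi.trans (Nat.le_succ c))), h (c + 1) le_rfl]

theorem IC_mem_lcs {G : Type u} [Group G] (c : ℕ) (f : ℕ → G) :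
    IC c f ∈ (⊤ : Subgroup G).lowerCentralSeries c := by
  induction c with
  | zero => trivial
  | succ c ih =>
    rw [Subgroup.lowerCentralSeries_succ]
    exact Subgroup.commutator_mem_commutator ih (Subgroup.mem_top _)

theorem law_imp (c : ℕ) : ∀ (G : Type u) [Group G], (∀ f : ℕ → G, IC c f = 1) →
    (⊤ : Subgroup G).lowerCentralSeries c = ⊥ := by
  induction c with
  | zero =>
    intro G _ h
    rw [Subgroup.lowerCentralSeries_zero, eq_bot_iff]
    intro x _
    exact h (fun _ => x)
  | succ c ih =>
    intro G _ h
    have hc : ∀ f : ℕ → G, IC c f ∈ Subgroup.center G := by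
      intro f
      rw [Subgroup.mem_center_iff]
      intro g
      have h1 := h (Function.update f (c + 1) g)
      simp only [IC, Function.update_self] at h1
      rw [IC_congr (g := f) (fun i hi => Function.update_of_ne (by omega) _ _)] at h1
      rw [commutatorElement_eq_one_iff_mul_comm] at h1
      exact h1.symm
    have hq := ih (G ⧸ Subgroup.center G) (by
      intro f
      choose g hg using fun i => QuotientGroup.mk'_surjective (Subgroup.center G) (f i)
      have : f = fun i => QuotientGroup.mk' (Subgroup.center G) (g i) := by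
        funext i; exact (hg i).symm
      rw [this, ← IC_map, mk_eq_one_iff]
      exact hc g)
    have h1 := Subgroup.map_lowerCentralSeries (⊤ : Subgroup G)
      (QuotientGroup.mk' (Subgroup.center G)) c
    rw [Subgroup.map_top_of_surjective _ (QuotientGroup.mk'_surjective _), hq] at h1
    rw [Subgroup.lowerCentralSeries_succ, Subgroup.commutator_top_right_eq_bot_iff_le_center]
    intro x hx
    rw [← mk_eq_one_iff, ← Subgroup.mem_bot]
    rw [← h1]
    exact ⟨x, hx, rfl⟩

theorem law_iff {G : Type u} [Group G] (c : ℕ) :
    (∀ f : ℕ → G, IC c f = 1) ↔ (⊤ : Subgroup G).lowerCentralSeries c = ⊥ := by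
  refine ⟨law_imp c G, fun h f => ?_⟩
  have := IC_mem_lcs c f
  rwa [h, Subgroup.mem_bot] at this

end Pool.Agent.Helper111.EN
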