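import Pool.Agent.Helper111.EN.Law

/-!
# Reduced products and restricted direct products of finite `p`-groups

`reduced_product` was proved by helper736, `restricted_sum` by helper658 (lemma jobs).
-/

set_option autoImplicit false

universe u v

open scoped commutatorElement

namespace Pool.Agent.Helper111.EN

namespace RPa

theorem IC_map {G : Type u} {H : Type v} [Group G] [Group H] (φ : G →* H) (c : ℕ) (f : ℕ → G) :
    φ (IC c f) = IC c (fun k => φ (f k)) := by
  induction c with
  | zero => rfl
  | succ c ih => 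
    show φ ⁅IC c f, f (c + 1)⁆ = ⁅IC c (fun k => φ (f k)), φ (f (c + 1))⁆
    rw [map_commutatorElement, ih]

theorem eng_map {G : Type u} {H : Type v} [Group G] [Group H] (φ : G →* H) (n : ℕ) (x y : G) :
    φ (eng n x y) = eng n (φ x) (φ y) := by
  induction n with
  | zero => rfl
  | succ n ih =>
    show φ (cm (eng n x y) y) = cm (eng n (φ x) (φ y)) (φ y)
    unfold cm
    rw [map_mul, map_mul, map_mul, map_inv, map_inv, ih]

/-- functions with finite support -/
def FinSup {S : Set ℕ} (R : S → Type) [∀ p, Group (R p)] : Subgroup (∀ p : S, R p) where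
  carrier := {f | {p | f p ≠ 1}.Finite}
  one_mem' := by
    show {p : S | (1 : ∀ p : S, R p) p ≠ 1}.Finite
    have : {p : S | (1 : ∀ p : S, R p) p ≠ 1} = ∅ := by
      ext p
      simp
    rw [this]
    exact Set.finite_empty
  mul_mem' := by
    intro f g hf hg
    refine (Set.Finite.union hf hg).subset ?_
    intro p hp
    by_contra hcon
    rw [Set.mem_union, not_or] at hcon
    have h1 : f p = 1 := not_not.1 hcon.1
    have h2 : g p = 1 := not_not.1 hcon.2
    apply hp
    rw [Pi.mul_apply, h1, h2, one_mul]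
  inv_mem' := by
    intro f hf
    refine Set.Finite.subset hf ?_
    intro p hp h1
    apply hp
    rw [Pi.inv_apply, h1, inv_one]

theorem mem_FinSup {S : Set ℕ} (R : S → Type) [∀ p, Group (R p)] (f : ∀ p : S, R p) :
    f ∈ FinSup R ↔ {p | f p ≠ 1}.Finite := Iff.rfl

instance FinSup_normal {S : Set ℕ} (R : S → Type) [∀ p, Group (R p)] : (FinSup R).Normal where
  conj_mem := by
    intro f hf g
    refine Set.Finite.subset hf ?_
    intro p hp h1
    apply hp
    rw [Pi.mul_apply, Pi.mul_apply, h1, mul_one, Pi.inv_apply, mul_inv_cancel]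

/-- reduced product of a family of groups modulo finite sets -/
theorem reduced_product (S : Set ℕ) (hS : S.Infinite) (hSp : ∀ p ∈ S, p.Prime) (n c : ℕ)
    (R : S → Type) [∀ p, Group (R p)] (hR : ∀ p : S, IsPGroup (p : ℕ) (R p))
    (hE : ∀ p, IsEngel n (R p)) (h1 : ∀ p, ∃ f : ℕ → R p, IC c f ≠ 1)
    (h2 : ∀ p, ∀ f : ℕ → R p, IC (c + 1) f = 1) :
    ∃ (Γ : Type) (_ : Group Γ), IsEngel n Γ ∧ (∀ f : ℕ → Γ, IC (c + 1) f = 1) ∧
      (∃ f : ℕ → Γ, IC c f ≠ 1) ∧ ∀ p : ℕ, p.Prime → ∀ x : Γ, x ^ p = 1 → x = 1 := by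
  refine ⟨(∀ p : S, R p) ⧸ FinSup R, inferInstance, ?_, ?_, ?_, ?_⟩
  · intro x y
    obtain ⟨f, rfl⟩ := QuotientGroup.mk'_surjective (FinSup R) x
    obtain ⟨g, rfl⟩ := QuotientGroup.mk'_surjective (FinSup R) y
    rw [← eng_map]
    have : eng n f g = 1 := by
      funext p
      have := eng_map (Pi.evalMonoidHom R p) n f g
      rw [Pi.evalMonoidHom_apply] at this
      rw [this]
      exact hE p _ _
    rw [this, map_one]
  · intro f
    choose F hF using fun k => QuotientGroup.mk'_surjective (FinSup R) (f k)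
    have e1 : f = fun k => QuotientGroup.mk' (FinSup R) (F k) := by
      funext k
      exact (hF k).symm
    rw [e1, ← IC_map]
    have : IC (c + 1) F = 1 := by
      funext p
      have := IC_map (Pi.evalMonoidHom R p) (c + 1) F
      rw [Pi.evalMonoidHom_apply] at this
      rw [this]
      exact h2 p _
    rw [this, map_one]
  · choose g hg using h1
    refine ⟨fun k => QuotientGroup.mk' (FinSup R) (fun p => g p k), ?_⟩
    rw [← IC_map (QuotientGroup.mk' (FinSup R)) c (fun k => fun p => g p k)]
    intro hcon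
    rw [QuotientGroup.mk'_apply, QuotientGroup.eq_one_iff, mem_FinSup] at hcon
    have huniv : {p : S | IC c (fun k => fun p => g p k) p ≠ 1} = Set.univ := by
      rw [Set.eq_univ_iff_forall]
      intro p
      have := IC_map (Pi.evalMonoidHom R p) c (fun k => fun p => g p k)
      rw [Pi.evalMonoidHom_apply] at this
      show IC c (fun k => fun p => g p k) p ≠ 1
      rw [this]
      exact hg p
    rw [huniv] at hcon
    haveI : Infinite S := hS.to_subtype
    exact Set.infinite_univ hcon
  · intro p hp x hx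
    obtain ⟨f, rfl⟩ := QuotientGroup.mk'_surjective (FinSup R) x
    rw [← map_pow, QuotientGroup.mk'_apply, QuotientGroup.eq_one_iff, mem_FinSup] at hx
    rw [QuotientGroup.mk'_apply, QuotientGroup.eq_one_iff, mem_FinSup]
    have hfin : {i : S | (i : ℕ) = p}.Finite := by
      apply Set.Subsingleton.finite
      intro a ha b hb
      exact Subtype.ext (ha.trans hb.symm)
    refine (hx.union hfin).subset ?_
    intro i hi
    by_contra hcon
    rw [Set.mem_union, not_or] at hcon
    have h3 : (f ^ p) i = 1 := not_not.1 hcon.1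
    have h4 : (i : ℕ) ≠ p := hcon.2
    rw [Pi.pow_apply] at h3
    obtain ⟨k, hk⟩ := hR i (f i)
    have h5 : orderOf (f i) ∣ p := orderOf_dvd_of_pow_eq_one h3
    have h6 : orderOf (f i) ∣ (i : ℕ) ^ k := orderOf_dvd_of_pow_eq_one hk
    have h7 : Nat.Coprime p ((i : ℕ) ^ k) :=
      Nat.Coprime.pow_right k ((Nat.coprime_primes hp (hSp i i.2)).2 (Ne.symm h4))
    have h8 : orderOf (f i) ∣ 1 := by
      rw [← h7]
      exact Nat.dvd_gcd h5 h6
    apply hi
    exact orderOf_eq_one_iff.1 (Nat.dvd_one.1 h8)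

end RPa

namespace RSa


/-- the restricted direct product -/
def restricted_sum_grp (Q : ℕ → Type) [∀ c, Group (Q c)] : Subgroup (∀ c, ULift.{u} (Q c)) where
  carrier := {f | {c | f c ≠ 1}.Finite}
  one_mem' := by
    have : {c : ℕ | (1 : ∀ c, ULift.{u} (Q c)) c ≠ 1} = ∅ := by
      ext c
      simp
    change {c : ℕ | (1 : ∀ c, ULift.{u} (Q c)) c ≠ 1}.Finite
    rw [this]
    exact Set.finite_empty
  mul_mem' := by
    intro a b ha hb
    refine (ha.union hb).subset ?_
    intro c hc
    by_contra h
    have h1 : a c = 1 := by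
      by_contra h'
      exact h (Or.inl h')
    have h2 : b c = 1 := by
      by_contra h'
      exact h (Or.inr h')
    apply hc
    change a c * b c = 1
    rw [h1, h2, one_mul]
  inv_mem' := by
    intro a ha
    refine ha.subset ?_
    intro c hc h
    apply hc
    change (a c)⁻¹ = 1
    rw [h, inv_one]

/-- evaluation -/
def restricted_sum_ev (Q : ℕ → Type) [∀ c, Group (Q c)] (c : ℕ) :
    restricted_sum_grp.{u} Q →* Q c where
  toFun x := (x.1 c).down
  map_one' := rfl
  map_mul' _ _ := rfl

theorem restricted_sum_ext (Q : ℕ → Type) [∀ c, Group (Q c)] (x y : restricted_sum_grp.{u} Q)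
    (h : ∀ c, restricted_sum_ev.{u} Q c x = restricted_sum_ev.{u} Q c y) : x = y := by
  apply Subtype.ext
  funext c
  exact ULift.down_injective (h c)

theorem restricted_sum_fin (Q : ℕ → Type) [∀ c, Group (Q c)] (x : restricted_sum_grp.{u} Q) :
    {c | restricted_sum_ev.{u} Q c x ≠ 1}.Finite := by
  refine Set.Finite.subset x.2 ?_
  intro c hc h
  apply hc
  change (x.1 c).down = 1
  rw [h]
  rfl

theorem restricted_sum_surj (Q : ℕ → Type) [∀ c, Group (Q c)] (c : ℕ) (q : Q c) :
    ∃ x : restricted_sum_grp.{u} Q, restricted_sum_ev.{u} Q c x = q := by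
  classical
  refine ⟨⟨Function.update 1 c (ULift.up q), ?_⟩, ?_⟩
  · refine (Set.finite_singleton c).subset ?_
    intro d hd
    by_contra h
    have h' : d ≠ c := h
    apply hd
    rw [Function.update_of_ne h']
    rfl
  · change (Function.update (1 : ∀ c, ULift.{u} (Q c)) c (ULift.up q) c).down = q
    rw [Function.update_self]

theorem restricted_sum_eng {G : Type u} [Group G] {H : Type v} [Group H] (φ : G →* H) (n : ℕ)
    (x y : G) : φ (eng n x y) = eng n (φ x) (φ y) := by
  induction n with
  | zero => rfl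
  | succ n ih =>
    change φ ((eng n x y)⁻¹ * y⁻¹ * eng n x y * y) = (eng n (φ x) (φ y))⁻¹ * (φ y)⁻¹ *
      eng n (φ x) (φ y) * φ y
    rw [map_mul, map_mul, map_mul, map_inv, map_inv, ih]

theorem restricted_sum_IC {G : Type u} [Group G] {H : Type v} [Group H] (φ : G →* H) (c : ℕ)
    (f : ℕ → G) : φ (IC c f) = IC c (fun k => φ (f k)) := by
  induction c with
  | zero => rfl
  | succ c ih =>
    change φ ⁅IC c f, f (c + 1)⁆ = ⁅IC c (fun k => φ (f k)), φ (f (c + 1))⁆
    rw [map_commutatorElement, ih]

theorem restricted_sum_main (p n : ℕ) (hp : p.Prime) (Q : ℕ → Type) [∀ c, Group (Q c)]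
    (h1 : ∀ c, Finite (Q c)) (h2 : ∀ c, IsPGroup p (Q c)) (h3 : ∀ c, IsEngel n (Q c))
    (f : ∀ c, ℕ → Q c) (h4 : ∀ c, IC c (f c) ≠ 1) :
    ∃ (G : Type u) (_ : Group G), IsPGroup p G ∧ IsEngel n G ∧ LocNil G ∧
      ¬ Group.IsNilpotent G := by
  have : Fact p.Prime := ⟨hp⟩
  have hpg : IsPGroup p (restricted_sum_grp.{u} Q) := by
    intro x
    choose k hk using fun c => h2 c (restricted_sum_ev.{u} Q c x)
    refine ⟨(restricted_sum_fin.{u} Q x).toFinset.sup k, ?_⟩
    apply restricted_sum_ext
    intro c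
    rw [map_pow, map_one]
    by_cases hc : restricted_sum_ev.{u} Q c x = 1
    · rw [hc, one_pow]
    · have hle : k c ≤ (restricted_sum_fin.{u} Q x).toFinset.sup k :=
        Finset.le_sup ((restricted_sum_fin.{u} Q x).mem_toFinset.2 hc)
      obtain ⟨m, hm⟩ := Nat.exists_eq_add_of_le hle
      rw [hm, pow_add, pow_mul, hk c, one_pow]
  refine ⟨restricted_sum_grp.{u} Q, inferInstance, hpg, ?_, ?_, ?_⟩
  · intro x y
    apply restricted_sum_ext
    intro c
    rw [restricted_sum_eng, map_one]
    exact h3 c _ _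
  · intro H hH
    obtain ⟨S, hS⟩ := hH
    -- the union of the supports
    obtain ⟨I, hI⟩ : ∃ I : Set ℕ, I = ⋃ s ∈ S, {c | restricted_sum_ev.{u} Q c s ≠ 1} := ⟨_, rfl⟩
    have hIfin : I.Finite := by
      rw [hI]
      exact S.finite_toSet.biUnion fun s _ => restricted_sum_fin.{u} Q s
    have hsupp : ∀ x ∈ H, ∀ c, c ∉ I → restricted_sum_ev.{u} Q c x = 1 := by
      intro x hx c hc
      have hle : H ≤ (restricted_sum_ev.{u} Q c).ker := by
        rw [← hS, Subgroup.closure_le]
        intro s hs
        change restricted_sum_ev.{u} Q c s = 1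
        by_contra hne
        apply hc
        rw [hI]
        exact Set.mem_biUnion hs hne
      exact hle hx
    have hfin : Finite H := by
      have hI' : Finite I := hIfin
      refine Finite.of_injective
        (fun (x : H) (i : I) => restricted_sum_ev.{u} Q (i : ℕ) (x : restricted_sum_grp.{u} Q)) ?_
      intro x y hxy
      apply Subtype.ext
      apply restricted_sum_ext
      intro c
      by_cases hc : c ∈ I
      · exact congrFun hxy ⟨c, hc⟩
      · rw [hsupp x x.2 c hc, hsupp y y.2 c hc]
    exact (hpg.to_subgroup H).isNilpotent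
  · intro hnil
    obtain ⟨c, hc⟩ := Subgroup.nilpotent_iff_lowerCentralSeries.1 hnil
    have h5 := (law_iff c).2 hc
    choose g hg using fun k => restricted_sum_surj.{u} Q c (f c k)
    apply h4 c
    have h6 := congrArg (restricted_sum_ev.{u} Q c) (h5 g)
    rw [restricted_sum_IC, map_one] at h6
    simp only [hg] at h6
    exact h6

/-- restricted direct product of finite `p`-groups of unbounded class -/
theorem restricted_sum (p n : ℕ) (hp : p.Prime)
    (h : ∀ c : ℕ, ∃ (Q : Type) (_ : Group Q), Finite Q ∧ IsPGroup p Q ∧ IsEngel n Q ∧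
      ∃ f : ℕ → Q, IC c f ≠ 1) :
    ∃ (G : Type u) (_ : Group G), IsPGroup p G ∧ IsEngel n G ∧ LocNil G ∧
      ¬ Group.IsNilpotent G := by
  choose Q hQ h1 h2 h3 f h4 using h
  exact restricted_sum_main p n hp Q h1 h2 h3 f h4

end RSa

end Pool.Agent.Helper111.EN
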