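import Pool.Agent.Helper111.EN.Resid
import Pool.Agent.Helper111.EN.Prod

/-!
# Sufficient sets of primes for Engel groups
-/

set_option autoImplicit false

universe u v

open scoped commutatorElement

namespace Pool.Agent.Helper111.EN

theorem tf_of_noOrder {G : Type u} [Group G] (π : Set ℕ) (hπ : ∀ p ∈ π, p.Prime)
    (h : NoOrder π G) : ∀ p ∈ π, ∀ x : G, x ^ p = 1 → x = 1 := by
  intro p hp x hx
  have h1 := orderOf_dvd_of_pow_eq_one hx
  rcases (Nat.dvd_prime (hπ p hp)).1 h1 with h2 | h2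
  · exact orderOf_eq_one_iff.1 h2
  · exact absurd h2 (h p hp x)

theorem NoOrder.subgroup {G : Type u} [Group G] {π : Set ℕ} (h : NoOrder π G) (H : Subgroup G) :
    NoOrder π H := by
  intro p hp x
  rw [← Subgroup.orderOf_coe]
  exact h p hp x

/-- If all finite `n`-Engel `r`-groups with `r` outside `π` have class at most `c`, so have all
locally nilpotent `n`-Engel groups without elements of order in `π`. -/
theorem bounded_global {G : Type u} [Group G] (n c : ℕ) (π : Set ℕ)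
    (hπ : ∀ p ∈ π, p.Prime) (q : ℕ) (hq : q.Prime) (hqπ : q ∉ π)
    (hE : IsEngel n G) (hL : LocNil G) (htf : NoOrder π G)
    (hb : ∀ r : ℕ, r.Prime → r ∉ π → ∀ (Q : Type u) [Group Q], Finite Q → IsPGroup r Q →
      IsEngel n Q → ∀ f : ℕ → Q, IC c f = 1) :
    ∀ f : ℕ → G, IC c f = 1 := by
  classical
  intro f
  by_contra hf
  obtain ⟨H, hH⟩ : ∃ H : Subgroup G, H = Subgroup.closure (f '' {i | i ≤ c}) := ⟨_, rfl⟩
  have hHfg : H.FG := by
    rw [Subgroup.fg_iff]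
    exact ⟨_, hH.symm, (Set.finite_le_nat c).image f⟩
  have hmem : ∀ i ≤ c, f i ∈ H := by
    intro i hi
    rw [hH]
    exact Subgroup.subset_closure ⟨i, hi, rfl⟩
  have hHn : Group.IsNilpotent H := hL H hHfg
  have hHF : Group.FG H := (Group.fg_iff_subgroup_fg _).2 hHfg
  obtain ⟨g, hg⟩ : ∃ g : ℕ → H, ∀ i ≤ c, (g i : G) = f i := by
    refine ⟨fun i => if h : i ≤ c then ⟨f i, hmem i h⟩ else 1, ?_⟩
    intro i hi
    simp [hi]
  have hw : IC c g ≠ 1 := by
    intro h1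
    apply hf
    have h2 := IC_map H.subtype c g
    rw [h1, map_one] at h2
    rw [h2]
    exact IC_congr (fun i hi => (hg i hi).symm)
  obtain ⟨r, hr, hrπ, N, hN, hwN, hfin, hpg⟩ :=
    resid π hπ q hq hqπ (tf_of_noOrder π hπ (htf.subgroup H)) (IC c g) hw
  have hEH : IsEngel n H := hE.of_injective H.subtype H.subtype_injective n
  have hEQ : IsEngel n (H ⧸ N) :=
    hEH.of_surjective (QuotientGroup.mk' N) (QuotientGroup.mk'_surjective N) n
  have h3 := hb r hr hrπ (H ⧸ N) hfin hpg hEQ (fun i => QuotientGroup.mk' N (g i))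
  rw [← IC_map, mk_eq_one_iff] at h3
  exact hwN h3

/-- cut a finite `p`-group of class `> c` down to class exactly `c + 1` -/
theorem cut {Q : Type} [Group Q] [Finite Q] (p n c : ℕ) (hp : p.Prime) (hQ : IsPGroup p Q)
    (hE : IsEngel n Q) (hc : ∃ f : ℕ → Q, IC c f ≠ 1) :
    ∃ (R : Type) (_ : Group R), Finite R ∧ IsPGroup p R ∧ IsEngel n R ∧
      (∃ f : ℕ → R, IC c f ≠ 1) ∧ ∀ f : ℕ → R, IC (c + 1) f = 1 := by
  have hfact : Fact p.Prime := ⟨hp⟩
  have hnil : Group.IsNilpotent Q := hQ.isNilpotent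
  obtain ⟨N, hN⟩ : ∃ N : Subgroup Q, N = (⊤ : Subgroup Q).lowerCentralSeries (c + 1) := ⟨_, rfl⟩
  have hNn : N.Normal := by rw [hN]; infer_instance
  refine ⟨Q ⧸ N, inferInstance, inferInstance, hQ.to_quotient N,
    hE.of_surjective (QuotientGroup.mk' N) (QuotientGroup.mk'_surjective N) n, ?_, ?_⟩
  · by_contra hcon
    push Not at hcon
    rw [law_iff] at hcon
    have h1 := Subgroup.map_lowerCentralSeries (⊤ : Subgroup Q) (QuotientGroup.mk' N) c
    rw [Subgroup.map_top_of_surjective _ (QuotientGroup.mk'_surjective _), hcon] at h1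
    have h2 : (⊤ : Subgroup Q).lowerCentralSeries c ≤ (⊤ : Subgroup Q).lowerCentralSeries (c + 1) := by
      intro x hx
      rw [← hN, ← mk_eq_one_iff, ← Subgroup.mem_bot, ← h1]
      exact ⟨x, hx, rfl⟩
    have h3 : ∀ m, (⊤ : Subgroup Q).lowerCentralSeries c ≤
        (⊤ : Subgroup Q).lowerCentralSeries (c + m) := by
      intro m
      induction m with
      | zero => exact le_rfl
      | succ m ih =>
        refine h2.trans ?_
        rw [Subgroup.lowerCentralSeries_succ, ← add_assoc, Subgroup.lowerCentralSeries_succ]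
        exact Subgroup.commutator_mono ih le_rfl
    obtain ⟨m, hm⟩ := Subgroup.nilpotent_iff_lowerCentralSeries.1 hnil
    have h4 : (⊤ : Subgroup Q).lowerCentralSeries c = ⊥ := by
      rw [eq_bot_iff, ← hm]
      exact (h3 m).trans (Subgroup.lowerCentralSeries_antitone _ (Nat.le_add_left m c))
    obtain ⟨f, hf⟩ := hc
    exact hf ((law_iff c).2 h4 f)
  · rw [law_iff]
    have h1 := Subgroup.map_lowerCentralSeries (⊤ : Subgroup Q) (QuotientGroup.mk' N) (c + 1)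
    rw [Subgroup.map_top_of_surjective _ (QuotientGroup.mk'_surjective _)] at h1
    rw [← h1, ← hN, QuotientGroup.map_mk'_self]

/-- **Compactness**: if all finite `n`-Engel `q`-groups have class at most `c` for one prime `q`,
then the same holds for all but finitely many primes. -/
theorem almost_all (n c q : ℕ) (hq : q.Prime)
    (hb : ∀ (Q : Type) [Group Q], Finite Q → IsPGroup q Q → IsEngel n Q →
      ∀ f : ℕ → Q, IC c f = 1) :
    {p : ℕ | p.Prime ∧ ∃ (Q : Type) (_ : Group Q), Finite Q ∧ IsPGroup p Q ∧ IsEngel n Q ∧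
      ∃ f : ℕ → Q, IC c f ≠ 1}.Finite := by
  by_contra hinf
  obtain ⟨S, hS⟩ : ∃ S : Set ℕ, S = {p : ℕ | p.Prime ∧ ∃ (Q : Type) (_ : Group Q), Finite Q ∧
    IsPGroup p Q ∧ IsEngel n Q ∧ ∃ f : ℕ → Q, IC c f ≠ 1} := ⟨_, rfl⟩
  rw [← hS] at hinf
  have hSp : ∀ p ∈ S, p.Prime := by
    intro p hp
    rw [hS] at hp
    exact hp.1
  have hcut : ∀ p : S, ∃ (R : Type) (_ : Group R), Finite R ∧ IsPGroup (p : ℕ) R ∧ IsEngel n R ∧
      (∃ f : ℕ → R, IC c f ≠ 1) ∧ ∀ f : ℕ → R, IC (c + 1) f = 1 := by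
    rintro ⟨p, hp⟩
    rw [hS] at hp
    obtain ⟨hpp, Q, _, hfin, hpg, hE, hf⟩ := hp
    exact cut p n c hpp hpg hE hf
  choose R iR hRfin hRp hRE h1 h2 using hcut
  obtain ⟨Γ, _, hΓE, hΓ2, hΓ1, hΓt⟩ := RPa.reduced_product S hinf hSp n c R hRp hRE h1 h2
  have hnil : Group.IsNilpotent Γ := Subgroup.nilpotent_iff_lowerCentralSeries.2
    ⟨c + 1, (law_iff (c + 1)).1 hΓ2⟩
  obtain ⟨f, hf⟩ := hΓ1
  refine hf (bounded_global n c {p | p.Prime ∧ p ≠ q} (fun p hp => hp.1) q hq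
    (fun h => h.2 rfl) hΓE (fun H _ => inferInstance) ?_ ?_ f)
  · intro p hp g hg
    have h3 : g ^ p = 1 := by rw [← hg]; exact pow_orderOf_eq_one g
    have h4 := hΓt p hp.1 g h3
    rw [h4, orderOf_one] at hg
    exact hp.1.one_lt.ne hg
  · intro r hr hrπ Q _ hfin hpg hE
    have hrq : r = q := by
      by_contra hne
      exact hrπ ⟨hr, hne⟩
    subst hrq
    exact hb Q hfin hpg hE

theorem class_le_iff {Q : Type u} [Group Q] [Group.IsNilpotent Q] (c : ℕ) :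
    Group.nilpotencyClass Q ≤ c ↔ ∀ f : ℕ → Q, IC c f = 1 := by
  rw [law_iff, Subgroup.lowerCentralSeries_eq_bot_iff_nilpotencyClass_le]

theorem lt_class_iff {Q : Type u} [Group Q] [Group.IsNilpotent Q] (c : ℕ) :
    c < Group.nilpotencyClass Q ↔ ∃ f : ℕ → Q, IC c f ≠ 1 := by
  rw [← not_le, class_le_iff]
  push Not
  rfl

theorem classLE_iff {n p t : ℕ} (hp : p.Prime) : ClassLE n p t ↔
    ∀ (Q : Type) [Group Q], Finite Q → IsPGroup p Q → IsEngel n Q → ∀ f : ℕ → Q, IC t f = 1 := by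
  have hfact : Fact p.Prime := ⟨hp⟩
  constructor
  · intro h Q _ hfin hpg hE
    have hnil : Group.IsNilpotent Q := hpg.isNilpotent
    exact (class_le_iff t).1 (h Q hfin hpg hE)
  · intro h Q _ hfin hpg hE
    have hnil : Group.IsNilpotent Q := hpg.isNilpotent
    exact (class_le_iff t).2 (h Q hfin hpg hE)

theorem bound_of_not_unbounded {n p : ℕ} (hp : p.Prime) (h : ¬ Unbounded n p) :
    ∃ c : ℕ, ∀ (Q : Type) [Group Q], Finite Q → IsPGroup p Q → IsEngel n Q →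
      ∀ f : ℕ → Q, IC c f = 1 := by
  unfold Unbounded at h
  push Not at h
  obtain ⟨c, hc⟩ := h
  exact ⟨c, (classLE_iff hp).1 hc⟩

theorem exists_of_not_classLE {n p t : ℕ} (hp : p.Prime) (h : ¬ ClassLE n p t) :
    ∃ (Q : Type) (_ : Group Q), Finite Q ∧ IsPGroup p Q ∧ IsEngel n Q ∧
      ∃ f : ℕ → Q, IC t f ≠ 1 := by
  by_contra hcon
  push Not at hcon
  exact h ((classLE_iff hp).2 fun Q _ h1 h2 h3 f => hcon Q inferInstance h1 h2 h3 f)

/-- passing between universes for finite groups -/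
theorem small_to_univ {n p c : ℕ} (h : ∀ (Q : Type) [Group Q], Finite Q → IsPGroup p Q →
    IsEngel n Q → ∀ f : ℕ → Q, IC c f = 1) (Q : Type u) [Group Q] (hfin : Finite Q)
    (hpg : IsPGroup p Q) (hE : IsEngel n Q) : ∀ f : ℕ → Q, IC c f = 1 := by
  obtain ⟨R, _, hRf, ⟨φ⟩⟩ := Finite.exists_type_univ_nonempty_mulEquiv.{u, 0} Q
  intro f
  have h1 := h R inferInstance (hpg.of_equiv φ)
    (hE.of_surjective φ.toMonoidHom φ.surjective n) (fun i => φ (f i))
  have h2 := IC_map φ.toMonoidHom c f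
  apply φ.injective
  rw [map_one, ← h1]
  exact h2

/-- uniform bound for all primes outside `π` -/
theorem uniform_bound (n : ℕ) (π : Set ℕ) (q : ℕ) (hq : q.Prime) (hqπ : q ∉ π)
    (hU : ∀ p : ℕ, p.Prime → Unbounded n p → p ∈ π) :
    ∃ C : ℕ, ∀ r : ℕ, r.Prime → r ∉ π → ∀ (Q : Type) [Group Q], Finite Q → IsPGroup r Q →
      IsEngel n Q → ∀ f : ℕ → Q, IC C f = 1 := by
  classical
  obtain ⟨c₀, hc₀⟩ := bound_of_not_unbounded hq (fun h => hqπ (hU q hq h))
  have hfin := almost_all n c₀ q hq hc₀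
  have hb : ∀ r : ℕ, ∃ c : ℕ, r.Prime → r ∉ π → ∀ (Q : Type) [Group Q], Finite Q →
      IsPGroup r Q → IsEngel n Q → ∀ f : ℕ → Q, IC c f = 1 := by
    intro r
    by_cases hr : r.Prime ∧ r ∉ π
    · obtain ⟨c, hc⟩ := bound_of_not_unbounded hr.1 (fun h => hr.2 (hU r hr.1 h))
      exact ⟨c, fun _ _ => hc⟩
    · exact ⟨0, fun h1 h2 => absurd ⟨h1, h2⟩ hr⟩
  choose b hb using hb
  refine ⟨max c₀ (hfin.toFinset.sup b), ?_⟩
  intro r hr hrπ Q _ hQf hQp hQE
  by_cases hmem : ∃ f : ℕ → Q, IC c₀ f ≠ 1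
  · have h1 : r ∈ hfin.toFinset := by
      rw [Set.Finite.mem_toFinset]
      exact ⟨hr, Q, inferInstance, hQf, hQp, hQE, hmem⟩
    exact IC_mono ((Finset.le_sup h1).trans (le_max_right _ _)) (hb r hr hrπ Q hQf hQp hQE)
  · push Not at hmem
    exact IC_mono (le_max_left _ _) hmem

theorem class_bound (n : ℕ) (π : Set ℕ) (hπ : ∀ p ∈ π, p.Prime) (q : ℕ) (hq : q.Prime)
    (hqπ : q ∉ π) (hU : ∀ p : ℕ, p.Prime → Unbounded n p → p ∈ π) :
    ∃ C : ℕ, ∀ (G : Type u) [Group G], IsEngel n G → LocNil G → NoOrder π G →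
      Group.IsNilpotent G ∧ Group.nilpotencyClass G ≤ C := by
  obtain ⟨C, hC⟩ := uniform_bound n π q hq hqπ hU
  refine ⟨C, ?_⟩
  intro G _ hE hL hN
  have h1 := bounded_global n C π hπ q hq hqπ hE hL hN
    (fun r hr hrπ Q _ hQf hQp hQE => small_to_univ (hC r hr hrπ) Q hQf hQp hQE)
  have hnil : Group.IsNilpotent G := Subgroup.nilpotent_iff_lowerCentralSeries.2
    ⟨C, (law_iff C).1 h1⟩
  exact ⟨hnil, (class_le_iff C).2 h1⟩

theorem noOrder_of_pGroup {p : ℕ} (hp : p.Prime) {G : Type u} [Group G] (hG : IsPGroup p G)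
    (π : Set ℕ) (hπ : ∀ r ∈ π, r.Prime) (hpπ : p ∉ π) : NoOrder π G := by
  have hfact : Fact p.Prime := ⟨hp⟩
  intro r hr g hg
  obtain ⟨k, hk⟩ := (IsPGroup.iff_orderOf.1 hG) g
  rw [hg] at hk
  have hrp := hπ r hr
  have h0 : r ∣ p ^ k := by rw [← hk]
  have h1 : r ∣ p := hrp.dvd_of_dvd_pow h0
  have h2 : r = p := (Nat.prime_dvd_prime_iff_eq hrp hp).1 h1
  exact hpπ (h2 ▸ hr)

/-- unbounded class gives a non-nilpotent locally nilpotent `p`-group -/
theorem exists_nonnilpotent (n p : ℕ) (hp : p.Prime) (hU : Unbounded n p) :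
    ∃ (G : Type u) (_ : Group G), IsPGroup p G ∧ IsEngel n G ∧ LocNil G ∧
      ¬ Group.IsNilpotent G :=
  RSa.restricted_sum.{u} p n hp (fun c => exists_of_not_classLE hp (hU c))

theorem not_sufficient (n : ℕ) (π : Set ℕ) (hπ : ∀ p ∈ π, p.Prime) (p : ℕ) (hp : p.Prime)
    (hpπ : p ∉ π) (hU : Unbounded n p) : ¬ Sufficient.{u} n π := by
  intro hS
  obtain ⟨G, _, hG, hE, hL, hn⟩ := exists_nonnilpotent.{u} n p hp hU
  exact hn (hS G hE hL (noOrder_of_pGroup hp hG π hπ hpπ))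

theorem sufficient_iff (n : ℕ) (π : Set ℕ) (hπ : π ⊆ {p | p.Prime})
    (hq : ∃ q : ℕ, q.Prime ∧ q ∉ π) :
    Sufficient.{u} n π ↔ ∀ p : ℕ, p.Prime → Unbounded n p → p ∈ π := by
  constructor
  · intro hS p hp hU
    by_contra hpπ
    exact not_sufficient.{u} n π hπ p hp hpπ hU hS
  · intro hU
    obtain ⟨q, hq, hqπ⟩ := hq
    obtain ⟨C, hC⟩ := class_bound.{u} n π hπ q hq hqπ hU
    intro G _ hE hL hN
    exact (hC G hE hL hN).1

theorem sufficient_sInter (n : ℕ) (F : Set (Set ℕ)) (hF : F.Nonempty)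
    (h : ∀ π ∈ F, π ⊆ {p | p.Prime} ∧ Sufficient.{u} n π) : Sufficient.{u} n (⋂₀ F) := by
  obtain ⟨π₀, hπ₀⟩ := hF
  have hsub : ⋂₀ F ⊆ {p | p.Prime} := (Set.sInter_subset_of_mem hπ₀).trans (h π₀ hπ₀).1
  by_cases hq : ∃ q : ℕ, q.Prime ∧ q ∉ ⋂₀ F
  · rw [sufficient_iff n _ hsub hq]
    intro p hp hU
    rw [Set.mem_sInter]
    intro π hπ
    by_contra hpπ
    exact not_sufficient.{u} n π (h π hπ).1 p hp hpπ hU (h π hπ).2
  · push Not at hq
    have heq : ⋂₀ F = π₀ := by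
      refine Set.Subset.antisymm (Set.sInter_subset_of_mem hπ₀) ?_
      intro p hp
      exact hq p ((h π₀ hπ₀).1 hp)
    rw [heq]
    exact (h π₀ hπ₀).2

theorem finite_and_bound (n : ℕ) (π : Set ℕ) (hπ : π ⊆ {p | p.Prime})
    (hq : ∃ q : ℕ, q.Prime ∧ q ∉ π) (hS : Sufficient.{u} n π) :
    {p : ℕ | p.Prime ∧ Unbounded n p}.Finite ∧
      ∃ C : ℕ, ∀ (G : Type u) [Group G], IsEngel n G → LocNil G → NoOrder π G →
        Group.nilpotencyClass G ≤ C := by
  have hU := (sufficient_iff n π hπ hq).1 hS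
  obtain ⟨q, hq, hqπ⟩ := hq
  constructor
  · obtain ⟨c, hc⟩ := bound_of_not_unbounded hq (fun h => hqπ (hU q hq h))
    refine (almost_all n c q hq hc).subset ?_
    rintro p ⟨hp, hpU⟩
    exact ⟨hp, exists_of_not_classLE hp (hpU c)⟩
  · obtain ⟨C, hC⟩ := class_bound.{u} n π hπ q hq hqπ hU
    exact ⟨C, fun G _ hE hL hN => (hC G hE hL hN).2⟩

theorem unbounded_iff (n p : ℕ) (hp : p.Prime) : Unbounded n p ↔
    ∃ (G : Type u) (_ : Group G), IsPGroup p G ∧ IsEngel n G ∧ LocNil G ∧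
      ¬ Group.IsNilpotent G := by
  constructor
  · exact exists_nonnilpotent n p hp
  · rintro ⟨G, _, hG, hE, hL, hn⟩
    by_contra hU
    apply hn
    obtain ⟨C, hC⟩ := class_bound.{u} n {r | r.Prime ∧ r ≠ p} (fun r hr => hr.1) p hp
      (fun h => h.2 rfl) (fun r hr hrU => ⟨hr, fun h => hU (h ▸ hrU)⟩)
    exact (hC G hE hL (noOrder_of_pGroup hp hG _ (fun r hr => hr.1) (fun h => h.2 rfl))).1

/-- torsion-free groups control almost all primes -/
theorem almost_all_of_torsionFree (n t : ℕ)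
    (h : ∀ (G : Type u) [Group G], (∀ x : G, x ≠ 1 → ¬ IsOfFinOrder x) → IsEngel n G →
      LocNil G → Group.IsNilpotent G ∧ Group.nilpotencyClass G ≤ t) :
    {p : ℕ | p.Prime ∧ ¬ ClassLE n p t}.Finite := by
  by_contra hinf
  obtain ⟨S, hS⟩ : ∃ S : Set ℕ, S = {p : ℕ | p.Prime ∧ ¬ ClassLE n p t} := ⟨_, rfl⟩
  rw [← hS] at hinf
  have hSp : ∀ p ∈ S, p.Prime := by
    intro p hp
    rw [hS] at hp
    exact hp.1
  have hcut : ∀ p : S, ∃ (R : Type) (_ : Group R), Finite R ∧ IsPGroup (p : ℕ) R ∧ IsEngel n R ∧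
      (∃ f : ℕ → R, IC t f ≠ 1) ∧ ∀ f : ℕ → R, IC (t + 1) f = 1 := by
    rintro ⟨p, hp⟩
    rw [hS] at hp
    obtain ⟨Q, _, hfin, hpg, hE, hf⟩ := exists_of_not_classLE hp.1 hp.2
    exact cut p n t hp.1 hpg hE hf
  choose R iR hRfin hRp hRE h1 h2 using hcut
  obtain ⟨Γ, _, hΓE, hΓ2, hΓ1, hΓt⟩ := RPa.reduced_product S hinf hSp n t R hRp hRE h1 h2
  have hnil : Group.IsNilpotent Γ := Subgroup.nilpotent_iff_lowerCentralSeries.2
    ⟨t + 1, (law_iff (t + 1)).1 hΓ2⟩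
  have hnil' : Group.IsNilpotent (ULift.{u} Γ) :=
    Group.nilpotent_of_mulEquiv (MulEquiv.ulift (α := Γ)).symm
  obtain ⟨f, hf⟩ := hΓ1
  have hΓt' : ∀ x : Γ, x ≠ 1 → ¬ IsOfFinOrder x := by
    intro x hx hfo
    obtain ⟨p, hpd⟩ : ∃ p, p = (orderOf x).minFac := ⟨_, rfl⟩
    have h3 : orderOf x ≠ 1 := fun h => hx (orderOf_eq_one_iff.1 h)
    have hp : p.Prime := hpd ▸ Nat.minFac_prime h3
    have hdvd : p ∣ orderOf x := hpd ▸ Nat.minFac_dvd _
    obtain ⟨m, hm⟩ := hdvd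
    have h4 : (x ^ m) ^ p = 1 := by
      rw [← pow_mul, mul_comm, ← hm, pow_orderOf_eq_one]
    have h5 := hΓt p hp _ h4
    have h6 : orderOf x ∣ m := orderOf_dvd_of_pow_eq_one h5
    have hpos : 0 < orderOf x := hfo.orderOf_pos
    rw [hm] at h6 hpos
    have hmpos : 0 < m := Nat.pos_of_ne_zero (by rintro rfl; simp at hpos)
    have h7 := Nat.le_of_dvd hmpos h6
    have h8 := hp.two_le
    nlinarith
  obtain ⟨_, hcl⟩ := h (ULift.{u} Γ) (by
      intro x hx hfo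
      refine hΓt' x.down (fun h => hx (ULift.down_injective h)) ?_
      exact (MulEquiv.ulift (α := Γ)).toMonoidHom.isOfFinOrder hfo)
    (hΓE.of_injective (MulEquiv.ulift (α := Γ)).toMonoidHom (MulEquiv.ulift (α := Γ)).injective n)
    (fun H _ => inferInstance)
  rw [class_le_iff] at hcl
  have h3 := hcl (fun i => (MulEquiv.ulift (α := Γ)).symm (f i))
  have h4 := IC_map (MulEquiv.ulift (α := Γ)).symm.toMonoidHom t f
  apply hf
  apply (MulEquiv.ulift (α := Γ)).symm.injective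
  rw [map_one, ← h3]
  exact h4

theorem class_tfae (n t : ℕ) : List.TFAE [
    ∀ (G : Type u) [Group G], (∀ x : G, x ≠ 1 → ¬ IsOfFinOrder x) → IsEngel n G → LocNil G →
      Group.IsNilpotent G ∧ Group.nilpotencyClass G ≤ t,
    ∃ q : ℕ, q.Prime ∧ ClassLE n q t,
    {p : ℕ | p.Prime ∧ ¬ ClassLE n p t}.Finite,
    ∃ E : Set ℕ, E.Finite ∧ E ⊆ {p | p.Prime} ∧ ∀ (G : Type u) [Group G], IsEngel n G →
      LocNil G → NoOrder E G → Group.IsNilpotent G ∧ Group.nilpotencyClass G ≤ t] := by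
  have key : ∀ (π : Set ℕ), π ⊆ {p | p.Prime} → (∃ q : ℕ, q.Prime ∧ q ∉ π) →
      (∀ r : ℕ, r.Prime → r ∉ π → ClassLE n r t) → ∀ (G : Type u) [Group G], IsEngel n G →
      LocNil G → NoOrder π G → Group.IsNilpotent G ∧ Group.nilpotencyClass G ≤ t := by
    rintro π hπ ⟨q, hq, hqπ⟩ hC G _ hE hL hN
    have h1 := bounded_global n t π hπ q hq hqπ hE hL hN
      (fun r hr hrπ Q _ hQf hQp hQE =>
        small_to_univ ((classLE_iff hr).1 (hC r hr hrπ)) Q hQf hQp hQE)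
    have hnil : Group.IsNilpotent G := Subgroup.nilpotent_iff_lowerCentralSeries.2
      ⟨t, (law_iff t).1 h1⟩
    exact ⟨hnil, (class_le_iff t).2 h1⟩
  have hex : ∀ E : Set ℕ, E.Finite → ∃ q : ℕ, q.Prime ∧ q ∉ E := by
    intro E hE
    obtain ⟨q, hq, hqE⟩ := (Nat.infinite_setOfPred_prime.sdiff hE).nonempty
    exact ⟨q, hq, hqE⟩
  tfae_have 1 → 3 := almost_all_of_torsionFree n t
  tfae_have 3 → 4 := by
    intro h
    refine ⟨_, h, fun p hp => hp.1, ?_⟩
    intro G _ hE hL hN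
    refine key _ (fun p hp => hp.1) (hex _ h) ?_ G hE hL hN
    intro r hr hrn
    by_contra hc
    exact hrn ⟨hr, hc⟩
  tfae_have 4 → 2 := by
    rintro ⟨E, hEf, hEp, hE⟩
    obtain ⟨q, hq, hqE⟩ := hex E hEf
    refine ⟨q, hq, ?_⟩
    have hfact : Fact q.Prime := ⟨hq⟩
    rw [classLE_iff hq]
    intro Q _ hQf hQp hQE f
    have hnil : Group.IsNilpotent Q := hQp.isNilpotent
    have hnil' : Group.IsNilpotent (ULift.{u} Q) :=
      Group.nilpotent_of_mulEquiv (MulEquiv.ulift (α := Q)).symm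
    obtain ⟨_, hcl⟩ := hE (ULift.{u} Q)
      (hQE.of_injective (MulEquiv.ulift (α := Q)).toMonoidHom (MulEquiv.ulift (α := Q)).injective n)
      (fun H _ => inferInstance)
      (noOrder_of_pGroup hq (hQp.of_equiv (MulEquiv.ulift (α := Q)).symm) E hEp hqE)
    rw [class_le_iff] at hcl
    have h3 := hcl (fun i => (MulEquiv.ulift (α := Q)).symm (f i))
    have h4 := IC_map (MulEquiv.ulift (α := Q)).symm.toMonoidHom t f
    apply (MulEquiv.ulift (α := Q)).symm.injective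
    rw [map_one, ← h3]
    exact h4
  tfae_have 2 → 1 := by
    rintro ⟨q, hq, hC⟩ G _ htf hE hL
    refine key {r | r.Prime ∧ r ≠ q} (fun r hr => hr.1) ⟨q, hq, fun h => h.2 rfl⟩ ?_ G hE hL ?_
    · intro r hr hrn
      have : r = q := by
        by_contra hne
        exact hrn ⟨hr, hne⟩
      exact this ▸ hC
    · intro r hr g hg
      have hg1 : g ≠ 1 := by
        rintro rfl
        rw [orderOf_one] at hg
        exact hr.1.one_lt.ne hg
      exact htf g hg1 (orderOf_pos_iff.1 (hg ▸ hr.1.pos))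
  tfae_finish

end Pool.Agent.Helper111.EN
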